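import Pool.Agent.Lib_helper40.MC.T8a.Dat

/-!
# N = 8, first special: the trivial relations
-/

set_option autoImplicit false
set_option maxRecDepth 100000

namespace Pool.Agent.MC8a

open Pool.Agent.KC72 Pool.Agent.MC

theorem c8a_t0 : blk (cT c8a c8a_t) c8a.T 40 0 = true := by decide +kernel

theorem c8a_t1 : blk (cT c8a c8a_t) c8a.T 40 1 = true := by decide +kernel

theorem c8a_t2 : blk (cT c8a c8a_t) c8a.T 40 2 = true := by decide +kernel

theorem c8a_t' : ∀ k < 3, blk (cT c8a c8a_t) c8a.T 40 k = true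
  | 0, _ => c8a_t0
  | 1, _ => c8a_t1
  | 2, _ => c8a_t2
  | k + 3, h => absurd h (by omega)

end Pool.Agent.MC8a
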