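import Pool.Agent.Lib_helper40.MC.T8a.Q
import Pool.Agent.Lib_helper40.MC.T8a.T

/-!
# N = 8, first special: all checks
-/

set_option autoImplicit false
set_option maxRecDepth 100000

namespace Pool.Agent.MC8a

open Pool.Agent.KC72 Pool.Agent.MC

theorem c8a_0 : NumX c8a c8a_t c8a_ll.length := by decide +kernel

theorem c8a_om : xm c8a.kb c8a.ko (c8a.m * c8a.N) c8a.Om = true := by decide +kernel

theorem c8a_b : cB c8a = true := by decide +kernel

theorem c8a_r0 : blk (cR c8a) c8a.rels 60 0 = true := by decide +kernel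

theorem c8a_r' : ∀ k < 1, blk (cR c8a) c8a.rels 60 k = true
  | 0, _ => c8a_r0
  | k + 1, h => absurd h (by omega)

theorem c8a_g : allI (fun c g => cG c8a.DG c8a_t.B c8a_t.MA c8a_t.P2 c8a_t.MB c g) c8a.G 0 = true := by decide +kernel

theorem c8a_g' : c8a.toCert.chk3' = true := by decide +kernel

theorem c8a_k1 : (c8a.cls.take c8a.m).map (prF c8a_t.p c8a.n c8a.r) = c8a_t.PR := by decide +kernel

theorem c8a_k2 : (c8a.cls.take c8a.m).map (pkw (Int.ofNat c8a_t.Z) (Int.ofNat (Nat.pow c8a_t.Z c8a.n)) c8a.r) = c8a_t.PM := by decide +kernel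

theorem c8a_k3 : c8a_t.P2.map (fun x => pmb (Int.ofNat c8a_t.B) x.1 x.2 (c8a.cls.take c8a.m)) = c8a_t.MB := by decide +kernel

theorem c8a_e : c8a.cls.all (fun e => bdE c8a_t.MA c8a.n e.1.2 && bdE c8a_t.MA c8a.n e.2.2) = true := by decide +kernel

theorem c8a_xq : c8a_t.XQ.all (fun X => X.all (xm c8a_t.a c8a_t.d c8a_t.S)) = true := by decide +kernel

theorem c8a_xt : c8a_t.XT.all (fun X => X.all (xm c8a_t.a' c8a_t.d' c8a_t.K)) = true := by decide +kernel

theorem c8a_d0_0 : blk (cD c8a c8a_v0) c8a.Q 40 0 = true := by decide +kernel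

theorem c8a_d0_1 : blk (cD c8a c8a_v0) c8a.Q 40 1 = true := by decide +kernel

theorem c8a_d0_' : ∀ k < 2, blk (cD c8a c8a_v0) c8a.Q 40 k = true
  | 0, _ => c8a_d0_0
  | 1, _ => c8a_d0_1
  | k + 2, h => absurd h (by omega)

theorem c8a_x : allI (fun s L => cL c8a c8a_t (c8a_vl.getD s []) s L) c8a_ll 0 = true := by decide +kernel

/-- all checks -/
theorem c8a_ok : ROkX c8a c8a_ll :=
  rOkX_of (A := c8a_t) (VL := c8a_vl) (l4 := 60) (n4 := 1) (lQ := 40) (nQ := 2) (lT := 40) (nT := 3) rfl c8a_0 c8a_om c8a_b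
    (by decide) (by decide +kernel) c8a_r' c8a_g c8a_g' ⟨c8a_k1, c8a_k2, c8a_k3⟩ c8a_e c8a_xq c8a_xt (by decide) (by decide +kernel) c8a_q'
    (by decide) (by decide +kernel) c8a_t' c8a_x
    (List.forall_mem_cons.2 ⟨c8a_d0_', (List.forall_mem_nil _)⟩)

end Pool.Agent.MC8a
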