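import Pool.Agent.Lib_helper40.MC.P2
import Pool.Agent.Lib_helper40.MC.T8a.Ok
import Pool.Agent.Lib_helper54.FAM.C8a

/-!
# The classes of the certificate `c8a` are those of the list `c8a_cls`
-/

set_option autoImplicit false
set_option maxRecDepth 100000

namespace Pool.Agent.MC8a

open Pool.Agent.MC

/-- positions -/
def ia : List ℕ := [37, 35, 28, 34, 32, 33, 9, 6, 5, 3, 0, 48, 27, 20, 22, 54, 55, 23, 61, 58, 36, 59, 60, 30,
  57, 29, 31, 64, 63, 8, 4, 7, 56, 62, 1, 2, 40, 53, 13, 43, 50, 25, 12, 47, 39, 44, 46, 15,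
  11, 41, 24, 26, 52, 38, 10, 14, 17, 18, 42, 45, 19, 21, 73, 51, 49, 16, 69, 68, 65, 66, 72,
  71, 70, 67]

/-- positions -/
def ib : List ℕ := [10, 34, 35, 9, 30, 8, 7, 31, 29, 6, 54, 48, 42, 38, 55, 47, 65, 56, 57, 60, 13, 61, 14, 17,
  50, 41, 51, 12, 2, 25, 23, 26, 4, 5, 3, 1, 20, 0, 53, 44, 36, 49, 58, 39, 45, 59, 46, 43, 11,
  64, 40, 63, 52, 37, 15, 16, 32, 24, 19, 21, 22, 18, 33, 28, 27, 68, 69, 73, 67, 66, 72, 71,
  70, 62]

/-- **the same classes** -/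
theorem same : sameC c8a.cls N8C.c8a_cls = true :=
  sameC_of_pos (a := ia) (b := ib) (by decide +kernel) (by decide +kernel)

end Pool.Agent.MC8a
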